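import Pool.Agent.LibSchP.C1
import Pool.Agent.LibSchP.A3
import Pool.Agent.LibSchP.I1

/-!
# Superadditivity of the parallel sum forms, Lieb's and Epstein's theorems

For positive semidefinite `A = V diag(a) Vᴴ` (size `n`), `W = U diag(w) Uᴴ` (size `m`) and a
rectangular `K` the form `hf ρ` is `∑ |(Vᴴ K U)_ij|² a_i w_j / (a_i + ρ w_j)`.
-/

open Matrix MeasureTheory Set
open scoped ComplexOrder

namespace SchRA

open Pool.Agent.LibSchP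

variable {n m ι : Type} [Fintype n] [DecidableEq n] [Fintype m] [DecidableEq m] [Fintype ι]

/-- `∑ |(Vᴴ K U)_ij|² a_i w_j / (a_i + ρ w_j)` -/
noncomputable def hf (ρ : ℝ) (V : Matrix n n ℂ) (a : n → ℝ) (U : Matrix m m ℂ) (w : m → ℝ)
    (K : Matrix n m ℂ) : ℝ :=
  ∑ i, ∑ j, ‖(Vᴴ * K * U) i j‖ ^ 2 * (a i * w j / (a i + ρ * w j))

/-- the variational functional -/
noncomputable def vf (ρ : ℝ) (A : Matrix n n ℂ) (W : Matrix m m ℂ) (K Z : Matrix n m ℂ) : ℝ :=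
  ρ⁻¹ * (trace (Zᴴ * A * Z)).re + (trace ((K - Z) * W * (K - Z)ᴴ)).re

/-- trace of a double basis product -/
theorem trace_pair (V : Matrix n n ℂ) (U : Matrix m m ℂ) (f : n → ℝ) (g : m → ℝ)
    (K : Matrix n m ℂ) : (trace (Kᴴ * ud V f * K * ud U g)).re =
      ∑ i, ∑ j, ‖(Vᴴ * K * U) i j‖ ^ 2 * (f i * g j) := by
  have h1 : trace (Kᴴ * ud V f * K * ud U g) =
      trace ((Vᴴ * K * U)ᴴ * dg f * (Vᴴ * K * U) * dg g) := by
    have e1 : Kᴴ * ud V f * K * ud U g = (Kᴴ * V * dg f * (Vᴴ * K * U) * dg g) * Uᴴ := by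
      unfold ud; simp only [Matrix.mul_assoc]
    rw [e1, Matrix.trace_mul_comm]
    congr 1
    rw [conjTranspose_mul, conjTranspose_mul, conjTranspose_conjTranspose]
    simp only [Matrix.mul_assoc]
  rw [h1]
  have h2 : trace ((Vᴴ * K * U)ᴴ * dg f * (Vᴴ * K * U) * dg g) =
      ((∑ i, ∑ j, ‖(Vᴴ * K * U) i j‖ ^ 2 * (f i * g j) : ℝ) : ℂ) := by
    set X := Vᴴ * K * U
    unfold dg
    simp only [trace, diag_apply]
    rw [Finset.sum_comm, Complex.ofReal_sum]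
    refine Finset.sum_congr rfl fun j _ => ?_
    rw [mul_diagonal, Matrix.mul_apply, Complex.ofReal_sum, Finset.sum_mul]
    refine Finset.sum_congr rfl fun i _ => ?_
    rw [mul_diagonal, conjTranspose_apply]
    have h3 : X i j * star (X i j) = ((‖X i j‖ : ℝ) : ℂ) ^ 2 := Complex.mul_conj' _
    push_cast
    rw [← h3]
    ring
  rw [h2, Complex.ofReal_re]

theorem tr1 (V : Matrix n n ℂ) (U : Matrix m m ℂ) (hU : U ∈ unitaryGroup m ℂ) (a : n → ℝ)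
    (Z : Matrix n m ℂ) : (trace (Zᴴ * ud V a * Z)).re =
      ∑ i, ∑ j, ‖(Vᴴ * Z * U) i j‖ ^ 2 * a i := by
  have h := trace_pair V U a (fun _ => 1) Z
  have e : ud U (fun _ => (1 : ℝ)) = 1 := by
    unfold ud
    rw [a2_dg_one, Matrix.mul_one, a2_uu' U hU]
  rw [e, Matrix.mul_one] at h
  rw [h]
  simp only [mul_one]

theorem tr2 (V : Matrix n n ℂ) (hV : V ∈ unitaryGroup n ℂ) (U : Matrix m m ℂ) (w : m → ℝ)
    (Z : Matrix n m ℂ) : (trace (Z * ud U w * Zᴴ)).re =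
      ∑ i, ∑ j, ‖(Vᴴ * Z * U) i j‖ ^ 2 * w j := by
  have h := trace_pair V U (fun _ => 1) w Z
  have e : ud V (fun _ => (1 : ℝ)) = 1 := by
    unfold ud
    rw [a2_dg_one, Matrix.mul_one, a2_uu' V hV]
  rw [e, Matrix.mul_one] at h
  have e2 : trace (Z * ud U w * Zᴴ) = trace (Zᴴ * Z * ud U w) := by
    rw [Matrix.trace_mul_comm, Matrix.mul_assoc]
  rw [e2, h]
  simp only [one_mul]

theorem vf_eq {ρ : ℝ} (V : Matrix n n ℂ) (hV : V ∈ unitaryGroup n ℂ) (U : Matrix m m ℂ)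
    (hU : U ∈ unitaryGroup m ℂ) (a : n → ℝ) (w : m → ℝ) (K Z : Matrix n m ℂ) :
    vf ρ (ud V a) (ud U w) K Z = ∑ i, ∑ j, (ρ⁻¹ * a i * ‖(Vᴴ * Z * U) i j‖ ^ 2 +
      w j * ‖(Vᴴ * K * U) i j - (Vᴴ * Z * U) i j‖ ^ 2) := by
  rw [vf, tr1 V U hU, tr2 V hV, Finset.mul_sum, ← Finset.sum_add_distrib]
  refine Finset.sum_congr rfl fun i _ => ?_
  rw [Finset.mul_sum, ← Finset.sum_add_distrib]
  refine Finset.sum_congr rfl fun j _ => ?_
  rw [Matrix.mul_sub, Matrix.sub_mul, Matrix.sub_apply]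
  ring

theorem pair_le {ρ a w : ℝ} (hρ : 0 < ρ) (ha : 0 ≤ a) (hw : 0 ≤ w) (k z : ℂ) :
    ‖k‖ ^ 2 * (a * w / (a + ρ * w)) ≤ ρ⁻¹ * a * ‖z‖ ^ 2 + w * ‖k - z‖ ^ 2 := by
  have hρw : 0 ≤ ρ * w := by positivity
  rcases (add_nonneg ha hρw).eq_or_lt with h | h
  · rw [← h, div_zero, mul_zero]
    positivity
  · have h1 : ‖k‖ ≤ ‖z‖ + ‖k - z‖ := by
      have := norm_add_le z (k - z)
      rwa [add_sub_cancel] at this
    have h2 : ‖k‖ ^ 2 ≤ (‖z‖ + ‖k - z‖) ^ 2 := pow_le_pow_left₀ (norm_nonneg _) h1 2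
    have h3 : 0 ≤ a * w / (a + ρ * w) := by positivity
    refine (mul_le_mul_of_nonneg_right h2 h3).trans ?_
    rw [mul_div_assoc', div_le_iff₀ h]
    set x := ‖z‖
    set y := ‖k - z‖
    have e : (ρ⁻¹ * a * x ^ 2 + w * y ^ 2) * (a + ρ * w) - (x + y) ^ 2 * (a * w) =
        ρ⁻¹ * (a * x - ρ * w * y) ^ 2 := by
      field_simp
      ring
    have : 0 ≤ ρ⁻¹ * (a * x - ρ * w * y) ^ 2 := by positivity
    linarith

theorem hf_le {ρ : ℝ} (hρ : 0 < ρ) (V : Matrix n n ℂ) (hV : V ∈ unitaryGroup n ℂ)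
    (U : Matrix m m ℂ) (hU : U ∈ unitaryGroup m ℂ) (a : n → ℝ) (ha : ∀ i, 0 ≤ a i) (w : m → ℝ)
    (hw : ∀ j, 0 ≤ w j) (K Z : Matrix n m ℂ) :
    hf ρ V a U w K ≤ vf ρ (ud V a) (ud U w) K Z := by
  rw [vf_eq V hV U hU, hf]
  exact Finset.sum_le_sum fun i _ => Finset.sum_le_sum fun j _ => pair_le hρ (ha i) (hw j) _ _

theorem hf_att {ρ : ℝ} (hρ : 0 < ρ) (V : Matrix n n ℂ) (hV : V ∈ unitaryGroup n ℂ)
    (U : Matrix m m ℂ) (hU : U ∈ unitaryGroup m ℂ) (a : n → ℝ) (ha : ∀ i, 0 ≤ a i) (w : m → ℝ)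
    (hw : ∀ j, 0 ≤ w j) (K : Matrix n m ℂ) :
    ∃ Z : Matrix n m ℂ, vf ρ (ud V a) (ud U w) K Z = hf ρ V a U w K := by
  set Z' : Matrix n m ℂ := Matrix.of fun i j =>
    ((ρ * w j / (a i + ρ * w j) : ℝ) : ℂ) * (Vᴴ * K * U) i j with hZ'
  refine ⟨V * Z' * Uᴴ, ?_⟩
  have e : Vᴴ * (V * Z' * Uᴴ) * U = Z' := by
    calc Vᴴ * (V * Z' * Uᴴ) * U = (Vᴴ * V) * Z' * (Uᴴ * U) := by simp only [Matrix.mul_assoc]
      _ = Z' := by rw [a2_uu V hV, a2_uu U hU, Matrix.one_mul, Matrix.mul_one]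
  rw [vf_eq V hV U hU, e, hf]
  refine Finset.sum_congr rfl fun i _ => Finset.sum_congr rfl fun j _ => ?_
  set k := (Vᴴ * K * U) i j
  have h1 : Z' i j = ((ρ * w j / (a i + ρ * w j) : ℝ) : ℂ) * k := rfl
  have hai := ha i
  have hwj := hw j
  have hρw : 0 ≤ ρ * w j := by positivity
  rcases (add_nonneg hai hρw).eq_or_lt with h | h
  · have h2 : a i = 0 := by linarith
    have h3 : w j = 0 := by
      have : ρ * w j = 0 := by linarith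
      rcases mul_eq_zero.1 this with h4 | h4
      · exact absurd h4 hρ.ne'
      · exact h4
    rw [h2, h3]
    simp
  · have h2 : k - Z' i j = ((a i / (a i + ρ * w j) : ℝ) : ℂ) * k := by
      rw [h1]
      have : ((a i / (a i + ρ * w j) : ℝ) : ℂ) = 1 - ((ρ * w j / (a i + ρ * w j) : ℝ) : ℂ) := by
        rw [← Complex.ofReal_one, ← Complex.ofReal_sub]
        congr 1
        field_simp
        ring
      rw [this]
      ring
    rw [h2, h1, norm_mul, norm_mul, Complex.norm_real, Complex.norm_real, Real.norm_eq_abs,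
      Real.norm_eq_abs, mul_pow, mul_pow, sq_abs, sq_abs]
    field_simp
    ring

/-- monotonicity of the variational functional -/
theorem vf_mono {ρ : ℝ} (hρ : 0 < ρ) (A : Matrix n n ℂ) (W : Matrix m m ℂ)
    (A' : ι → Matrix n n ℂ) (W' : ι → Matrix m m ℂ) (hA : (A - ∑ k, A' k).PosSemidef)
    (hW : (W - ∑ k, W' k).PosSemidef) (K Z : Matrix n m ℂ) :
    ∑ k, vf ρ (A' k) (W' k) K Z ≤ vf ρ A W K Z := by
  have h1 : 0 ≤ (trace (Zᴴ * (A - ∑ k, A' k) * Z)).re :=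
    (Complex.nonneg_iff.1 (hA.conjTranspose_mul_mul_same Z).trace_nonneg).1
  have h2 : 0 ≤ (trace ((K - Z) * (W - ∑ k, W' k) * (K - Z)ᴴ)).re :=
    (Complex.nonneg_iff.1 (hW.mul_mul_conjTranspose_same (K - Z)).trace_nonneg).1
  have e1 : (trace (Zᴴ * (A - ∑ k, A' k) * Z)).re =
      (trace (Zᴴ * A * Z)).re - ∑ k, (trace (Zᴴ * A' k * Z)).re := by
    rw [Matrix.mul_sub, Matrix.sub_mul, trace_sub, Complex.sub_re, Matrix.mul_sum, Matrix.sum_mul,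
      trace_sum, Complex.re_sum]
  have e2 : (trace ((K - Z) * (W - ∑ k, W' k) * (K - Z)ᴴ)).re =
      (trace ((K - Z) * W * (K - Z)ᴴ)).re - ∑ k, (trace ((K - Z) * W' k * (K - Z)ᴴ)).re := by
    rw [Matrix.mul_sub, Matrix.sub_mul, trace_sub, Complex.sub_re, Matrix.mul_sum, Matrix.sum_mul,
      trace_sum, Complex.re_sum]
  rw [e1] at h1
  rw [e2] at h2
  unfold vf
  rw [Finset.sum_add_distrib, ← Finset.mul_sum]
  have := mul_le_mul_of_nonneg_left h1 (inv_pos.2 hρ).le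
  rw [mul_zero, mul_sub] at this
  linarith

/-- **superadditivity of the parallel sum form** -/
theorem hf_super {ρ : ℝ} (hρ : 0 < ρ) {V : Matrix n n ℂ} (hV : V ∈ unitaryGroup n ℂ)
    {U : Matrix m m ℂ} (hU : U ∈ unitaryGroup m ℂ) {a : n → ℝ} (ha : ∀ i, 0 ≤ a i) {w : m → ℝ}
    (hw : ∀ j, 0 ≤ w j) {V' : ι → Matrix n n ℂ} (hV' : ∀ k, V' k ∈ unitaryGroup n ℂ)
    {U' : ι → Matrix m m ℂ} (hU' : ∀ k, U' k ∈ unitaryGroup m ℂ) {a' : ι → n → ℝ}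
    (ha' : ∀ k i, 0 ≤ a' k i) {w' : ι → m → ℝ} (hw' : ∀ k j, 0 ≤ w' k j)
    (hA : (ud V a - ∑ k, ud (V' k) (a' k)).PosSemidef)
    (hW : (ud U w - ∑ k, ud (U' k) (w' k)).PosSemidef) (K : Matrix n m ℂ) :
    ∑ k, hf ρ (V' k) (a' k) (U' k) (w' k) K ≤ hf ρ V a U w K := by
  obtain ⟨Z, hZ⟩ := hf_att hρ V hV U hU a ha w hw K
  rw [← hZ]
  refine (Finset.sum_le_sum fun k _ => hf_le hρ (V' k) (hV' k) (U' k) (hU' k) (a' k) (ha' k)
    (w' k) (hw' k) K Z).trans ?_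
  exact vf_mono hρ _ _ _ _ hA hW K Z

/-! ### Lieb's theorem -/

/-- `∑ |(Vᴴ K U)_ij|² a_i^θ w_j^(1-θ)` -/
noncomputable def lf (θ : ℝ) (V : Matrix n n ℂ) (a : n → ℝ) (U : Matrix m m ℂ) (w : m → ℝ)
    (K : Matrix n m ℂ) : ℝ :=
  ∑ i, ∑ j, ‖(Vᴴ * K * U) i j‖ ^ 2 * (a i ^ θ * w j ^ (1 - θ))

theorem int_pair {θ a w : ℝ} (h0 : 0 < θ) (h1 : θ < 1) (ha : 0 ≤ a) (hw : 0 ≤ w) :
    IntegrableOn (fun ρ : ℝ => a * w / (a + ρ * w) * ρ ^ (θ - 1)) (Ioi 0) ∧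
      ∫ ρ in Ioi (0 : ℝ), a * w / (a + ρ * w) * ρ ^ (θ - 1) = cst θ * (a ^ θ * w ^ (1 - θ)) := by
  rcases ha.eq_or_lt with ha | ha
  · rw [← ha, Real.zero_rpow h0.ne']
    simp
  rcases hw.eq_or_lt with hw | hw
  · rw [← hw, Real.zero_rpow (by linarith)]
    simp
  obtain ⟨h2, h3⟩ := int_base θ (a / w) h0 h1 (div_pos ha hw)
  have e : EqOn (fun ρ : ℝ => a * (ρ ^ (θ - 1) / (a / w + ρ)))
      (fun ρ : ℝ => a * w / (a + ρ * w) * ρ ^ (θ - 1)) (Ioi 0) := by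
    intro ρ hρ
    have hρ0 : (0 : ℝ) < ρ := hρ
    show a * (ρ ^ (θ - 1) / (a / w + ρ)) = a * w / (a + ρ * w) * ρ ^ (θ - 1)
    have : a / w + ρ = (a + ρ * w) / w := by field_simp
    rw [this]
    have : a + ρ * w ≠ 0 := by positivity
    field_simp
  have h4 : IntegrableOn (fun ρ : ℝ => a * (ρ ^ (θ - 1) / (a / w + ρ))) (Ioi 0) := h2.const_mul a
  refine ⟨h4.congr_fun e measurableSet_Ioi, ?_⟩
  rw [← setIntegral_congr_fun measurableSet_Ioi e, integral_const_mul, h3,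
    Real.div_rpow ha.le hw.le, Real.rpow_sub_one ha.ne']
  have e2 : w ^ (1 - θ) = (w ^ (θ - 1))⁻¹ := by
    rw [← Real.rpow_neg hw.le]; congr 1; ring
  rw [e2]
  field_simp

theorem int_hf {θ : ℝ} (h0 : 0 < θ) (h1 : θ < 1) (V : Matrix n n ℂ) (a : n → ℝ)
    (ha : ∀ i, 0 ≤ a i) (U : Matrix m m ℂ) (w : m → ℝ) (hw : ∀ j, 0 ≤ w j) (K : Matrix n m ℂ) :
    IntegrableOn (fun ρ : ℝ => hf ρ V a U w K * ρ ^ (θ - 1)) (Ioi 0) ∧
      ∫ ρ in Ioi (0 : ℝ), hf ρ V a U w K * ρ ^ (θ - 1) = cst θ * lf θ V a U w K := by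
  have e : (fun ρ : ℝ => hf ρ V a U w K * ρ ^ (θ - 1)) = fun ρ : ℝ => ∑ i, ∑ j,
      ‖(Vᴴ * K * U) i j‖ ^ 2 * (a i * w j / (a i + ρ * w j) * ρ ^ (θ - 1)) := by
    funext ρ
    rw [hf, Finset.sum_mul]
    refine Finset.sum_congr rfl fun i _ => ?_
    rw [Finset.sum_mul]
    refine Finset.sum_congr rfl fun j _ => ?_
    ring
  have hI : ∀ i j, IntegrableOn (fun ρ : ℝ =>
      ‖(Vᴴ * K * U) i j‖ ^ 2 * (a i * w j / (a i + ρ * w j) * ρ ^ (θ - 1))) (Ioi 0) :=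
    fun i j => (int_pair h0 h1 (ha i) (hw j)).1.const_mul _
  rw [e]
  refine ⟨integrable_finsetSum _ fun i _ => integrable_finsetSum _ fun j _ => hI i j, ?_⟩
  rw [integral_finsetSum _ fun i _ => integrable_finsetSum _ fun j _ => hI i j, lf,
    Finset.mul_sum]
  refine Finset.sum_congr rfl fun i _ => ?_
  rw [integral_finsetSum _ fun j _ => hI i j, Finset.mul_sum]
  refine Finset.sum_congr rfl fun j _ => ?_
  rw [integral_const_mul, (int_pair h0 h1 (ha i) (hw j)).2]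
  ring

/-- **Lieb's theorem** (superadditive form) -/
theorem lf_super {θ : ℝ} (h0 : 0 < θ) (h1 : θ < 1) {V : Matrix n n ℂ}
    (hV : V ∈ unitaryGroup n ℂ) {U : Matrix m m ℂ} (hU : U ∈ unitaryGroup m ℂ) {a : n → ℝ}
    (ha : ∀ i, 0 ≤ a i) {w : m → ℝ} (hw : ∀ j, 0 ≤ w j) {V' : ι → Matrix n n ℂ}
    (hV' : ∀ k, V' k ∈ unitaryGroup n ℂ) {U' : ι → Matrix m m ℂ}
    (hU' : ∀ k, U' k ∈ unitaryGroup m ℂ) {a' : ι → n → ℝ} (ha' : ∀ k i, 0 ≤ a' k i)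
    {w' : ι → m → ℝ} (hw' : ∀ k j, 0 ≤ w' k j)
    (hA : (ud V a - ∑ k, ud (V' k) (a' k)).PosSemidef)
    (hW : (ud U w - ∑ k, ud (U' k) (w' k)).PosSemidef) (K : Matrix n m ℂ) :
    ∑ k, lf θ (V' k) (a' k) (U' k) (w' k) K ≤ lf θ V a U w K := by
  have hc := cst_pos θ h0 h1
  refine le_of_mul_le_mul_left ?_ hc
  rw [Finset.mul_sum]
  have h2 := fun k => int_hf h0 h1 (V' k) (a' k) (ha' k) (U' k) (w' k) (hw' k) K
  have h3 := int_hf h0 h1 V a ha U w hw K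
  simp_rw [← fun k => (h2 k).2]
  rw [← h3.2, ← integral_finsetSum _ fun k _ => (h2 k).1]
  refine setIntegral_mono_on (integrable_finsetSum _ fun k _ => (h2 k).1) h3.1 measurableSet_Ioi
    fun ρ hρ => ?_
  rw [← Finset.sum_mul]
  exact mul_le_mul_of_nonneg_right (hf_super hρ hV hU ha hw hV' hU' ha' hw' hA hW K)
    (Real.rpow_nonneg (le_of_lt hρ) _)

end SchRA
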