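import Pool.Agent.LibSchRA75.A1
import Pool.Agent.LibSchTw.L1

/-!
# Epstein's theorem and its corollaries
-/

open Matrix MeasureTheory Set
open scoped ComplexOrder

namespace SchRA

open Pool.Agent.LibSchP Pool.Agent.LibSchTw

variable {n m ι : Type} [Fintype n] [DecidableEq n] [Fintype m] [DecidableEq m] [Fintype ι]

/-- `tr (Kᴴ Q^(1/s) K)^s` -/
noncomputable def ep (s : ℝ) (K : Matrix n m ℂ) (Q : Matrix n n ℂ) : ℝ :=
  (trace (rp s (Kᴴ * rp (1 / s) Q * K))).re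

theorem lf_trace {θ : ℝ} {V : Matrix n n ℂ} (hV : V ∈ unitaryGroup n ℂ) {U : Matrix m m ℂ}
    (hU : U ∈ unitaryGroup m ℂ) (a : n → ℝ) (w : m → ℝ) (K : Matrix n m ℂ) :
    lf θ V a U w K = (trace (Kᴴ * rp θ (ud V a) * K * rp (1 - θ) (ud U w))).re := by
  rw [rp_ud θ V hV, rp_ud (1 - θ) U hU, trace_pair, lf]

/-- Lieb's theorem for matrices -/
theorem lieb {θ : ℝ} (h0 : 0 < θ) (h1 : θ < 1) {Q : Matrix n n ℂ} (hQ : Q.PosSemidef)
    {W : Matrix m m ℂ} (hW : W.PosSemidef) {Q' : ι → Matrix n n ℂ}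
    (hQ' : ∀ k, (Q' k).PosSemidef) {W' : ι → Matrix m m ℂ} (hW' : ∀ k, (W' k).PosSemidef)
    (h : (Q - ∑ k, Q' k).PosSemidef) (h' : (W - ∑ k, W' k).PosSemidef) (K : Matrix n m ℂ) :
    ∑ k, (trace (Kᴴ * rp θ (Q' k) * K * rp (1 - θ) (W' k))).re ≤
      (trace (Kᴴ * rp θ Q * K * rp (1 - θ) W)).re := by
  obtain ⟨V, hV, a, ha, rfl⟩ := ud_exists_nonneg Q hQ
  obtain ⟨U, hU, w, hw, rfl⟩ := ud_exists_nonneg W hW
  choose V' hV' a' ha' hQe using fun k => ud_exists_nonneg (Q' k) (hQ' k)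
  choose U' hU' w' hw' hWe using fun k => ud_exists_nonneg (W' k) (hW' k)
  obtain rfl : Q' = fun k => ud (V' k) (a' k) := funext hQe
  obtain rfl : W' = fun k => ud (U' k) (w' k) := funext hWe
  have := lf_super h0 h1 hV hU ha hw hV' hU' ha' hw' h h' K
  rw [lf_trace hV hU] at this
  simp_rw [fun k => lf_trace (θ := θ) (hV' k) (hU' k) (a' k) (w' k) K] at this
  exact this

theorem rpow_aux {s x : ℝ} (hs : 1 < s) (hx : 0 ≤ x) : x * (x ^ s) ^ (1 - 1 / s) = x ^ s := by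
  rcases hx.eq_or_lt with h | h
  · rw [← h, zero_mul, Real.zero_rpow (by linarith)]
  · rw [← Real.rpow_mul h.le]
    have : s * (1 - 1 / s) = s - 1 := by field_simp
    rw [this, Real.rpow_sub_one h.ne']
    field_simp

theorem rpow_aux2 {s x : ℝ} (hs : 1 < s) (hx : 0 ≤ x) :
    (x ^ (1 - 1 / s)) ^ (s / (s - 1)) = x := by
  rw [← Real.rpow_mul hx]
  have h1 : s - 1 ≠ 0 := by linarith
  have h2 : s ≠ 0 := by linarith
  have : (1 - 1 / s) * (s / (s - 1)) = 1 := by field_simp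
  rw [this, Real.rpow_one]

theorem KQK_psd (s : ℝ) (K : Matrix n m ℂ) {Q : Matrix n n ℂ} (hQ : Q.PosSemidef) :
    (Kᴴ * rp s Q * K).PosSemidef :=
  (rp_posSemidef s Q hQ).conjTranspose_mul_mul_same K

theorem trace_rp_nonneg (s : ℝ) {Q : Matrix n n ℂ} (hQ : Q.PosSemidef) :
    0 ≤ (trace (rp s Q)).re :=
  (Complex.nonneg_iff.1 (rp_posSemidef s Q hQ).trace_nonneg).1

theorem ep_nonneg (s : ℝ) (K : Matrix n m ℂ) {Q : Matrix n n ℂ} (hQ : Q.PosSemidef) :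
    0 ≤ ep s K Q := trace_rp_nonneg s (KQK_psd (1 / s) K hQ)

/-- `tr X (X^s)^(1-1/s) = tr X^s` -/
theorem trace_self {s : ℝ} (hs : 1 < s) {X : Matrix n n ℂ} (hX : X.PosSemidef) :
    (trace (X * rp (1 - 1 / s) (rp s X))).re = (trace (rp s X)).re := by
  obtain ⟨U, hU, x, hx, rfl⟩ := ud_exists_nonneg X hX
  rw [rp_ud s U hU, rp_ud _ U hU, ud_mul U hU]
  congr 3
  funext k
  exact rpow_aux hs (hx k)

theorem rp_conj_self {s : ℝ} (hs : 1 < s) {X : Matrix n n ℂ} (hX : X.PosSemidef) :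
    rp (s / (s - 1)) (rp (1 - 1 / s) X) = X := by
  obtain ⟨U, hU, x, hx, rfl⟩ := ud_exists_nonneg X hX
  rw [rp_ud _ U hU, rp_ud _ U hU]
  congr 1
  funext k
  exact rpow_aux2 hs (hx k)

/-- **Epstein's theorem** (superadditive form): `Q ↦ tr (Kᴴ Q^(1/s) K)^s` -/
theorem epstein {s : ℝ} (hs : 1 < s) (K : Matrix n m ℂ) {Q : Matrix n n ℂ} (hQ : Q.PosSemidef)
    {Q' : ι → Matrix n n ℂ} (hQ' : ∀ k, (Q' k).PosSemidef) (h : (Q - ∑ k, Q' k).PosSemidef) :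
    ∑ k, ep s K (Q' k) ≤ ep s K Q := by
  have hs0 : 0 < s := by linarith
  have hθ0 : 0 < 1 / s := by positivity
  have hθ1 : 1 / s < 1 := by rw [div_lt_one hs0]; exact hs
  have hXk : ∀ k, (Kᴴ * rp (1 / s) (Q' k) * K).PosSemidef := fun k => KQK_psd (1 / s) K (hQ' k)
  have hX := KQK_psd (1 / s) K hQ
  have hWk : ∀ k, (rp s (Kᴴ * rp (1 / s) (Q' k) * K)).PosSemidef := fun k =>
    rp_posSemidef s _ (hXk k)
  have hW : (∑ k, rp s (Kᴴ * rp (1 / s) (Q' k) * K)).PosSemidef :=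
    posSemidef_sum _ fun k _ => hWk k
  have h1 := lieb hθ0 hθ1 hQ hW hQ' hWk h (by rw [sub_self]; exact PosSemidef.zero) K
  have h2 : ∀ k, (trace (Kᴴ * rp (1 / s) (Q' k) * K *
      rp (1 - 1 / s) (rp s (Kᴴ * rp (1 / s) (Q' k) * K)))).re = ep s K (Q' k) := fun k =>
    trace_self hs (hXk k)
  simp_rw [h2] at h1
  have hconj : s.HolderConjugate (s / (s - 1)) := Real.HolderConjugate.conjExponent hs
  have h3 := young_psd s (s / (s - 1)) hconj _ _ hX (rp_posSemidef (1 - 1 / s) _ hW)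
  rw [rp_conj_self hs hW] at h3
  have h4 : (trace (∑ k, rp s (Kᴴ * rp (1 / s) (Q' k) * K))).re = ∑ k, ep s K (Q' k) := by
    rw [trace_sum, Complex.re_sum]
    rfl
  rw [h4] at h3
  have h5 : ep s K Q = (trace (rp s (Kᴴ * rp (1 / s) Q * K))).re := rfl
  rw [← h5] at h3
  have h6 := h1.trans h3
  set S := ∑ k, ep s K (Q' k)
  have h7 : S / (s / (s - 1)) = S - S / s := by
    have : s - 1 ≠ 0 := by linarith
    field_simp
  rw [h7] at h6
  have h8 : S / s ≤ ep s K Q / s := by linarith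
  exact (div_le_div_iff_of_pos_right hs0).1 h8

theorem ud_smul (c : ℝ) (U : Matrix n n ℂ) (x : n → ℝ) :
    (c : ℂ) • ud U x = ud U fun k => c * x k := by
  unfold ud
  rw [← Matrix.smul_mul, ← Matrix.mul_smul]
  congr 2
  unfold dg
  rw [← Matrix.diagonal_smul]
  congr 1
  funext k
  simp

theorem rp_smul {c : ℝ} (hc : 0 ≤ c) (s : ℝ) {Q : Matrix n n ℂ} (hQ : Q.PosSemidef) :
    rp s ((c : ℂ) • Q) = ((c ^ s : ℝ) : ℂ) • rp s Q := by
  obtain ⟨U, hU, x, hx, rfl⟩ := ud_exists_nonneg Q hQ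
  rw [ud_smul, rp_ud s U hU, rp_ud s U hU, ud_smul]
  congr 1
  funext k
  exact Real.mul_rpow hc (hx k)

theorem smul_psd {c : ℝ} (hc : 0 ≤ c) {Q : Matrix n n ℂ} (hQ : Q.PosSemidef) :
    ((c : ℂ) • Q).PosSemidef := hQ.smul (Complex.zero_le_real.2 hc)

/-- homogeneity -/
theorem ep_smul {s : ℝ} (hs : 0 < s) (K : Matrix n m ℂ) {c : ℝ} (hc : 0 ≤ c)
    {Q : Matrix n n ℂ} (hQ : Q.PosSemidef) : ep s K ((c : ℂ) • Q) = c * ep s K Q := by
  rw [ep, rp_smul hc _ hQ, Matrix.mul_smul, Matrix.smul_mul,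
    rp_smul (Real.rpow_nonneg hc _) s (KQK_psd _ K hQ), ← Real.rpow_mul hc,
    one_div_mul_cancel hs.ne', Real.rpow_one, trace_smul, smul_eq_mul, Complex.re_ofReal_mul]
  rfl

/-- concavity -/
theorem ep_concave {s : ℝ} (hs : 1 < s) (K : Matrix n m ℂ) {Q₁ Q₂ : Matrix n n ℂ}
    (h₁ : Q₁.PosSemidef) (h₂ : Q₂.PosSemidef) {t : ℝ} (ht : 0 ≤ t) (ht' : t ≤ 1) :
    (1 - t) * ep s K Q₁ + t * ep s K Q₂ ≤
      ep s K (((1 - t : ℝ) : ℂ) • Q₁ + (t : ℂ) • Q₂) := by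
  have h1t : 0 ≤ 1 - t := by linarith
  have h := epstein (ι := Fin 2) hs K (Q := ((1 - t : ℝ) : ℂ) • Q₁ + (t : ℂ) • Q₂)
    (Q' := ![((1 - t : ℝ) : ℂ) • Q₁, (t : ℂ) • Q₂]) ((smul_psd h1t h₁).add (smul_psd ht h₂))
    (fun k => by
      fin_cases k
      · exact smul_psd h1t h₁
      · exact smul_psd ht h₂) (by
      rw [Fin.sum_univ_two]
      simp only [Matrix.cons_val_zero, Matrix.cons_val_one, sub_self]
      exact PosSemidef.zero)
  rw [Fin.sum_univ_two] at h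
  simp only [Matrix.cons_val_zero, Matrix.cons_val_one] at h
  rwa [ep_smul (by linarith) K h1t h₁, ep_smul (by linarith) K ht h₂] at h

/-- monotonicity -/
theorem ep_mono {s : ℝ} (hs : 1 < s) (K : Matrix n m ℂ) {Q₁ Q₂ : Matrix n n ℂ}
    (h₁ : Q₁.PosSemidef) (h₂ : Q₂.PosSemidef) (h : (Q₂ - Q₁).PosSemidef) :
    ep s K Q₁ ≤ ep s K Q₂ := by
  have := epstein (ι := Fin 1) hs K (Q := Q₂) (Q' := fun _ => Q₁) h₂ (fun _ => h₁) (by
    simpa using h)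
  simpa using this

/-- `Q ↦ tr B Q^θ` is concave, `B ≥ 0`, `0 < θ < 1` -/
theorem trace_rp_concave {θ : ℝ} (h0 : 0 < θ) (h1 : θ < 1) {B : Matrix n n ℂ}
    (hB : B.PosSemidef) {Q₁ Q₂ : Matrix n n ℂ} (h₁ : Q₁.PosSemidef) (h₂ : Q₂.PosSemidef)
    {t : ℝ} (ht : 0 ≤ t) (ht' : t ≤ 1) :
    (1 - t) * (trace (B * rp θ Q₁)).re + t * (trace (B * rp θ Q₂)).re ≤
      (trace (B * rp θ (((1 - t : ℝ) : ℂ) • Q₁ + (t : ℂ) • Q₂))).re := by
  have h1t : 0 ≤ 1 - t := by linarith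
  have hθ : (0 : ℝ) < 1 - θ := by linarith
  set W := rp (1 / (1 - θ)) B with hW
  have hWp : W.PosSemidef := rp_posSemidef _ _ hB
  have hWB : rp (1 - θ) W = B := by
    obtain ⟨U, hU, x, hx, rfl⟩ := ud_exists_nonneg B hB
    rw [hW, rp_ud _ U hU, rp_ud _ U hU]
    congr 1
    funext k
    rw [← Real.rpow_mul (hx k), one_div_mul_cancel hθ.ne', Real.rpow_one]
  have h := lieb (ι := Fin 2) h0 h1 (Q := ((1 - t : ℝ) : ℂ) • Q₁ + (t : ℂ) • Q₂) (W := W)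
    (Q' := ![((1 - t : ℝ) : ℂ) • Q₁, (t : ℂ) • Q₂]) (W' := ![((1 - t : ℝ) : ℂ) • W, (t : ℂ) • W])
    ((smul_psd h1t h₁).add (smul_psd ht h₂)) hWp
    (fun k => by
      fin_cases k
      · exact smul_psd h1t h₁
      · exact smul_psd ht h₂)
    (fun k => by
      fin_cases k
      · exact smul_psd h1t hWp
      · exact smul_psd ht hWp) (by
      rw [Fin.sum_univ_two]
      simp only [Matrix.cons_val_zero, Matrix.cons_val_one, sub_self]
      exact PosSemidef.zero) (by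
      rw [Fin.sum_univ_two]
      simp only [Matrix.cons_val_zero, Matrix.cons_val_one]
      rw [← add_smul, ← Complex.ofReal_add, sub_add_cancel, Complex.ofReal_one, one_smul, sub_self]
      exact PosSemidef.zero) 1
  rw [Fin.sum_univ_two] at h
  simp only [Matrix.cons_val_zero, Matrix.cons_val_one, conjTranspose_one, Matrix.one_mul,
    Matrix.mul_one] at h
  have e : ∀ {c : ℝ} (hc : 0 ≤ c) {Q : Matrix n n ℂ} (hQ : Q.PosSemidef),
      (trace (rp θ ((c : ℂ) • Q) * rp (1 - θ) ((c : ℂ) • W))).re =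
        c * (trace (B * rp θ Q)).re := by
    intro c hc Q hQ
    rw [rp_smul hc θ hQ, rp_smul hc (1 - θ) hWp, hWB, Matrix.smul_mul, Matrix.mul_smul, smul_smul,
      trace_smul, smul_eq_mul, ← Complex.ofReal_mul, Complex.re_ofReal_mul, Matrix.trace_mul_comm]
    rcases hc.eq_or_lt with h | h
    · rw [← h, Real.zero_rpow h0.ne', zero_mul, zero_mul]
    · rw [← Real.rpow_add h, add_sub_cancel, Real.rpow_one]
  rw [e h1t h₁, e ht h₂, hWB, Matrix.trace_mul_comm (rp θ _) B] at h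
  exact h

end SchRA
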